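import Mathlib

/-!
# Orbits in small open sets for actions with locally closed orbits
-/

set_option autoImplicit false
set_option linter.unusedSectionVars false

namespace Pool.Agent.V7H9.BT

open MulAction Topology Set Filter
open scoped Pointwise

section

variable {G Y : Type*} [Group G] [TopologicalSpace G] [IsTopologicalGroup G] [SigmaCompactSpace G]
  [TopologicalSpace Y] [T2Space Y] [LocallyCompactSpace Y] [MulAction G Y] [ContinuousSMul G Y]

/-- The orbit map of a locally closed orbit is open. -/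
theorem exists_open_of_locallyClosed {y : Y} (h : IsLocallyClosed (orbit G y)) {N : Set G}
    (hN : N ∈ 𝓝 (1 : G)) :
    ∃ O : Set Y, IsOpen O ∧ y ∈ O ∧ ∀ g : G, g • y ∈ O → ∃ n ∈ N, n • y = g • y := by
  have hlc : LocallyCompactSpace (orbit G y) := h.locallyCompactSpace
  have hcs : ContinuousSMul G (orbit G y) := by
    refine ⟨?_⟩
    refine Continuous.subtype_mk (f := fun z : G × orbit G y => z.1 • (z.2 : Y)) ?_ _
    exact continuous_fst.smul (continuous_subtype_val.comp continuous_snd)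
  have h1 := smul_singleton_mem_nhds_of_sigmaCompact hN (⟨y, mem_orbit_self y⟩ : orbit G y)
  rw [mem_nhds_subtype] at h1
  obtain ⟨u, hu, hsub⟩ := h1
  obtain ⟨O, hO, hOo, hy⟩ := mem_nhds_iff.1 hu
  refine ⟨O, hOo, hy, fun g hg => ?_⟩
  have h2 : (⟨g • y, mem_orbit y g⟩ : orbit G y) ∈ N • ({⟨y, mem_orbit_self y⟩} : Set (orbit G y)) :=
    hsub (hO hg)
  rw [Set.smul_singleton] at h2
  obtain ⟨n, hn, h3⟩ := h2
  exact ⟨n, hn, congrArg Subtype.val h3⟩

/-- **Orbits in small open sets.** If all orbits are locally closed then each nonempty open set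
contains a nonempty open set `U` such that two points of `U` in the same orbit differ by an element of
the given compact neighbourhood `N` of the identity. -/
theorem glimm [SecondCountableTopology Y] (hlc : ∀ y : Y, IsLocallyClosed (orbit G y)) {N : Set G}
    (hN : N ∈ 𝓝 (1 : G)) (hNc : IsCompact N) {R : Set Y} (hR : IsOpen R) (hne : R.Nonempty) :
    ∃ U : Set Y, IsOpen U ∧ U ⊆ R ∧ U.Nonempty ∧ ∀ x ∈ U, ∀ g : G, g • x ∈ U →
      ∃ n ∈ N, n • x = g • x := by
  classical
  have : Nonempty Y := ⟨hne.some⟩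
  let B := TopologicalSpace.countableBasis Y
  have hB := TopologicalSpace.isBasis_countableBasis Y
  have hBc : B.Countable := TopologicalSpace.countable_countableBasis Y
  have _ : Countable B := hBc.to_subtype
  let E : B → Set Y := fun b => {x | x ∈ (b : Set Y) ∧ ∀ g : G, g • x ∈ (b : Set Y) →
    ∃ n ∈ N, n • x = g • x}
  have hcov : ⋃ b, closure (E b) = univ := by
    refine eq_univ_of_forall fun y => ?_
    obtain ⟨O, hO, hy, h1⟩ := exists_open_of_locallyClosed (hlc y) hN
    obtain ⟨b, hb, hyb, hbO⟩ := hB.exists_subset_of_mem_open hy hO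
    exact mem_iUnion.2 ⟨⟨b, hb⟩, subset_closure ⟨hyb, fun g hg => h1 g (hbO hg)⟩⟩
  have hd := dense_iUnion_interior_of_closed (fun b => isClosed_closure (s := E b)) hcov
  obtain ⟨y, hyR, hy⟩ := hd.inter_open_nonempty R hR hne
  obtain ⟨b, hb⟩ := mem_iUnion.1 hy
  have hbo : IsOpen (b : Set Y) := hB.isOpen b.2
  refine ⟨R ∩ interior (closure (E b)) ∩ b, (hR.inter isOpen_interior).inter hbo,
    fun x hx => hx.1.1, ?_, ?_⟩
  · obtain ⟨z, hz, hzE⟩ := mem_closure_iff.1 (interior_subset hb) (R ∩ interior (closure (E b)))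
      (hR.inter isOpen_interior) ⟨hyR, hb⟩
    exact ⟨z, hz, hzE.1⟩
  · rintro x ⟨⟨-, hx⟩, hxb⟩ g ⟨-, hgx⟩
    -- approximation by points of `E b`
    have hcl : IsClosed {z : Y × Y | ∃ n ∈ N, n • z.1 = z.2} := by
      have _ : CompactSpace N := isCompact_iff_compactSpace.1 hNc
      have h1 : {z : Y × Y | ∃ n ∈ N, n • z.1 = z.2} =
          Prod.snd '' {w : N × (Y × Y) | (w.1 : G) • w.2.1 = w.2.2} := by
        ext z
        constructor
        · rintro ⟨n, hn, h⟩
          exact ⟨(⟨n, hn⟩, z), h, rfl⟩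
        · rintro ⟨⟨n, z'⟩, h, rfl⟩
          exact ⟨n, n.2, h⟩
      rw [h1]
      refine isClosedMap_snd_of_compactSpace _ (isClosed_eq ?_ ?_)
      · exact (continuous_subtype_val.comp continuous_fst).smul
          (continuous_fst.comp continuous_snd)
      · exact continuous_snd.comp continuous_snd
    have hx' : x ∈ closure (E b ∩ {z | g • z ∈ (b : Set Y)}) := by
      rw [mem_closure_iff]
      intro o ho hxo
      obtain ⟨z, hz, hzE⟩ := mem_closure_iff.1 (interior_subset hx)
        (o ∩ {z | g • z ∈ (b : Set Y)}) (ho.inter (hbo.preimage (continuous_const_smul g)))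
        ⟨hxo, hgx⟩
      exact ⟨z, hz.1, hzE, hz.2⟩
    have h2 : E b ∩ {z | g • z ∈ (b : Set Y)} ⊆
        (fun z : Y => (z, g • z)) ⁻¹' {z : Y × Y | ∃ n ∈ N, n • z.1 = z.2} := by
      rintro z ⟨hz, hgz⟩
      exact hz.2 g hgz
    have h3 := closure_minimal h2 (hcl.preimage (continuous_id.prodMk (continuous_const_smul g)))
    exact h3 hx'

/-- The same in an invariant locally closed set. -/
theorem glimm_locallyClosed [SecondCountableTopology Y] {W : Set Y} (hW : IsLocallyClosed W)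
    (hWi : ∀ (g : G), ∀ x ∈ W, g • x ∈ W) (hlc : ∀ y ∈ W, IsLocallyClosed (orbit G y))
    {N : Set G} (hN : N ∈ 𝓝 (1 : G)) (hNc : IsCompact N) {R : Set Y} (hR : IsOpen R)
    (hne : (W ∩ R).Nonempty) :
    ∃ U : Set Y, IsOpen U ∧ U ⊆ R ∧ (W ∩ U).Nonempty ∧ ∀ x ∈ W ∩ U, ∀ g : G, g • x ∈ U →
      ∃ n ∈ N, n • x = g • x := by
  let _ : MulAction G W :=
    { smul := fun g x => ⟨g • x.1, hWi g x.1 x.2⟩
      one_smul := fun x => Subtype.ext (one_smul G x.1)
      mul_smul := fun a b x => Subtype.ext (mul_smul a b x.1) }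
  have hval : ∀ (g : G) (x : W), ((g • x : W) : Y) = g • (x : Y) := fun _ _ => rfl
  have hcs : ContinuousSMul G W := by
    refine ⟨?_⟩
    refine Continuous.subtype_mk (f := fun z : G × W => z.1 • (z.2 : Y)) ?_ _
    exact continuous_fst.smul (continuous_subtype_val.comp continuous_snd)
  have hlcs : LocallyCompactSpace W := hW.locallyCompactSpace
  have horb : ∀ x : W, IsLocallyClosed (orbit G x) := by
    intro x
    have h1 : orbit G x = Subtype.val ⁻¹' orbit G (x : Y) := by
      ext z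
      constructor
      · rintro ⟨g, rfl⟩
        exact ⟨g, rfl⟩
      · rintro ⟨g, hg⟩
        exact ⟨g, Subtype.ext hg⟩
    rw [h1]
    exact (hlc x x.2).preimage continuous_subtype_val
  obtain ⟨x₀, hx₀, hx₀'⟩ := hne
  obtain ⟨U, hU, hUR, hUne, h⟩ := glimm (Y := W) horb hN hNc (R := Subtype.val ⁻¹' R)
    (hR.preimage continuous_subtype_val) ⟨⟨x₀, hx₀⟩, hx₀'⟩
  obtain ⟨O, hO, rfl⟩ := isOpen_induced_iff.1 hU
  refine ⟨O ∩ R, hO.inter hR, inter_subset_right, ?_, ?_⟩
  · obtain ⟨x, hx⟩ := hUne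
    exact ⟨x, x.2, hx, hUR hx⟩
  · rintro x ⟨hxW, hxO, hxR⟩ g ⟨hgO, hgR⟩
    obtain ⟨n, hn, h1⟩ := h ⟨x, hxW⟩ hxO g hgO
    exact ⟨n, hn, congrArg Subtype.val h1⟩

end

end Pool.Agent.V7H9.BT
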