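import Pool.Agent.V7H9.BT.Defs
import Pool.Agent.V7H9.BT.Glimm
import Pool.Agent.V7H36.BC.Main

/-!
# The local-global principle for the assembly map over smooth actions with locally closed orbits
-/

set_option autoImplicit false
set_option linter.unusedSectionVars false

open MulAction Topology

namespace Pool.Agent.V7H9.BT

open Pool.Agent.V7H36.BC

section

variable {G V : Type} [Group G] [TopologicalSpace G] [IsTopologicalGroup G] [SigmaCompactSpace G]
  [LocallyCompactSpace G] [TopologicalSpace V] [T2Space V] [LocallyCompactSpace V]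
  [SecondCountableTopology V] [MulAction G V] [ContinuousSMul G V]

/-- **Quotients of open subsets of closed invariant sets**: if the closed invariant set `W` has a
transversal in `O` and the orbits are locally closed then `W` has a closed invariant proper subset `W'`
such that some continuous map from `W \ W'` to a Euclidean space separates exactly the orbits, and the
orbits in `W \ W'` meet `O`. -/
theorem exists_quotient {W O : Set V} (hW : IsClosed W) (hWi : Invariant (⊤ : Subgroup G) W)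
    (hO : IsOpen O) (hWO : (W ∩ O).Nonempty) (hlc : ∀ v ∈ W ∩ O, IsLocallyClosed (orbit G v))
    (hT : HasTransversal G W O) :
    ∃ W' : Set V, IsClosed W' ∧ Invariant (⊤ : Subgroup G) W' ∧ W' ⊂ W ∧
      (∀ v ∈ W \ W', IsLocallyClosed (orbit G v)) ∧
      ∃ (m : ℕ) (q : V → Fin m → ℝ), ContinuousOn q (W \ W') ∧ InvariantOn G q (W \ W') ∧
        ∀ x ∈ W \ W', ∀ y ∈ W \ W', q x = q y → y ∈ orbit G x := by
  classical
  obtain ⟨N, m, τ, hN, hτ, hτ1, hτ2⟩ := hT
  obtain ⟨K, hK, hKN, hKc⟩ := local_compact_nhds hN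
  -- the orbits which meet `O`
  let W₁ : Set V := W ∩ ⋃ g : G, {x | g • x ∈ O}
  have hW₁l : IsLocallyClosed W₁ :=
    hW.isLocallyClosed.inter (isOpen_iUnion fun g =>
      hO.preimage (continuous_const_smul g)).isLocallyClosed
  have hW₁i : ∀ (g : G), ∀ x ∈ W₁, g • x ∈ W₁ := by
    rintro g x ⟨hx, hx'⟩
    obtain ⟨k, hk⟩ := Set.mem_iUnion.1 hx'
    refine ⟨hWi g trivial x hx, Set.mem_iUnion.2 ⟨k * g⁻¹, ?_⟩⟩
    change (k * g⁻¹) • g • x ∈ O
    rw [mul_smul, inv_smul_smul]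
    exact hk
  have hW₁lc : ∀ y ∈ W₁, IsLocallyClosed (orbit G y) := by
    rintro y ⟨hy, hy'⟩
    obtain ⟨k, hk⟩ := Set.mem_iUnion.1 hy'
    have h1 := hlc (k • y) ⟨hWi k trivial y hy, hk⟩
    rwa [orbit_smul] at h1
  have hsub₁ : W ∩ O ⊆ W₁ := by
    rintro x ⟨hx, hx'⟩
    refine ⟨hx, Set.mem_iUnion.2 ⟨1, ?_⟩⟩
    change (1 : G) • x ∈ O
    rw [one_smul]
    exact hx'
  obtain ⟨U, hU, hUO, hUne', hUo'⟩ := glimm_locallyClosed (G := G) hW₁l hW₁i hW₁lc hK hKc hO
    (by
      obtain ⟨x, hx⟩ := hWO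
      exact ⟨x, hsub₁ hx, hx.2⟩)
  have hUne : (W ∩ U).Nonempty := by
    obtain ⟨x, hx⟩ := hUne'
    exact ⟨x, hx.1.1, hx.2⟩
  have hUo : ∀ x ∈ W ∩ U, ∀ g : G, g • x ∈ U → ∃ n ∈ K, n • x = g • x := fun x hx g hg =>
    hUo' x ⟨hsub₁ ⟨hx.1, hUO hx.2⟩, hx.2⟩ g hg
  -- two points of `W ∩ U` in one orbit have the same value
  have hinv : ∀ x ∈ W ∩ U, ∀ g : G, g • x ∈ U → τ (g • x) = τ x := by
    intro x hx g hg
    obtain ⟨n, hn, h1⟩ := hUo x hx g hg
    rw [← h1]
    exact hτ1 n (hKN hn) x ⟨hx.1, hUO hx.2⟩ (by rw [h1]; exact hUO hg)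
  let W' : Set V := W ∩ ⋂ g : G, {x | g • x ∉ U}
  have hmem : ∀ x, x ∈ W \ W' ↔ x ∈ W ∧ ∃ g : G, g • x ∈ U := by
    intro x
    constructor
    · rintro ⟨h1, h2⟩
      refine ⟨h1, ?_⟩
      by_contra hcon
      push Not at hcon
      exact h2 ⟨h1, Set.mem_iInter.2 hcon⟩
    · rintro ⟨h1, g, hg⟩
      exact ⟨h1, fun h2 => Set.mem_iInter.1 h2.2 g hg⟩
  have hW'c : IsClosed W' := by
    refine hW.inter (isClosed_iInter fun g => ?_)
    exact (hU.preimage (continuous_const_smul g)).isClosed_compl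
  have hW'i : Invariant (⊤ : Subgroup G) W' := by
    rintro g - x ⟨hx, hx'⟩
    refine ⟨hWi g trivial x hx, Set.mem_iInter.2 fun k => ?_⟩
    have h1 := Set.mem_iInter.1 hx' (k * g)
    intro h2
    apply h1
    rw [mul_smul]
    exact h2
  have hss : W' ⊂ W := by
    refine ⟨Set.inter_subset_left, fun h => ?_⟩
    obtain ⟨x, hx, hxU⟩ := hUne
    have h1 := Set.mem_iInter.1 (h hx).2 (1 : G)
    apply h1
    rw [one_smul]
    exact hxU
  -- the quotient map
  let c : V → G := fun x => if h : ∃ g : G, g • x ∈ U then h.choose else 1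
  have hc : ∀ x ∈ W \ W', c x • x ∈ W ∩ U := by
    intro x hx
    obtain ⟨h1, h2⟩ := (hmem x).1 hx
    refine ⟨hWi _ trivial x h1, ?_⟩
    change (if h : ∃ g : G, g • x ∈ U then h.choose else 1) • x ∈ U
    rw [dif_pos h2]
    exact h2.choose_spec
  let q : V → Fin m → ℝ := fun x => τ (c x • x)
  have hq : ∀ x ∈ W \ W', ∀ g : G, g • x ∈ U → q x = τ (g • x) := by
    intro x hx g hg
    have h1 := hc x hx
    have h2 := hinv (c x • x) h1 (g * (c x)⁻¹) (by
      rw [smul_smul, mul_assoc, inv_mul_cancel, mul_one]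
      exact hg)
    rw [smul_smul, mul_assoc, inv_mul_cancel, mul_one] at h2
    exact h2.symm
  refine ⟨W', hW'c, hW'i, hss, ?_, m, q, ?_, ?_, ?_⟩
  · intro v hv
    obtain ⟨h1, g, hg⟩ := (hmem v).1 hv
    exact hW₁lc v ⟨h1, Set.mem_iUnion.2 ⟨g, hUO hg⟩⟩
  · intro x hx
    have h1 := hc x hx
    have hcont : ContinuousWithinAt (fun z => τ (c x • z)) (W \ W') x := by
      have h2 : ContinuousWithinAt τ (W ∩ O) (c x • x) := hτ _ ⟨h1.1, hUO h1.2⟩
      have h3 : ContinuousWithinAt (fun z : V => c x • z) ((W \ W') ∩ {z | c x • z ∈ U}) x :=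
        (continuous_const_smul (c x)).continuousWithinAt
      have h4 : ContinuousWithinAt (fun z => τ (c x • z)) ((W \ W') ∩ {z | c x • z ∈ U}) x := by
        refine ContinuousWithinAt.comp (g := τ) (t := W ∩ O) h2 h3 ?_
        rintro z ⟨hz, hz'⟩
        exact ⟨hWi _ trivial z hz.1, hUO hz'⟩
      refine h4.mono_of_mem_nhdsWithin ?_
      exact inter_mem_nhdsWithin _ ((hU.preimage (continuous_const_smul (c x))).mem_nhds h1.2)
    refine hcont.congr_of_eventuallyEq ?_ rfl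
    have h5 : {z | c x • z ∈ U} ∈ 𝓝[W \ W'] x :=
      mem_nhdsWithin_of_mem_nhds ((hU.preimage (continuous_const_smul (c x))).mem_nhds h1.2)
    filter_upwards [h5, self_mem_nhdsWithin] with z hz hzW
    exact hq z hzW (c x) hz
  · intro g x hx
    have h1 := hc x hx
    have hgx : g • x ∈ W \ W' := ⟨hWi g trivial x hx.1, fun h => hx.2
      ((invariant_iff hW'i g x).1 h)⟩
    have h2 := hq (g • x) hgx (c x * g⁻¹) (by
      rw [smul_smul, mul_assoc, inv_mul_cancel, mul_one]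
      exact h1.2)
    rw [smul_smul, mul_assoc, inv_mul_cancel, mul_one] at h2
    exact h2
  · intro x hx y hy hxy
    have h1 := hc x hx
    have h2 := hc y hy
    obtain ⟨g, hg⟩ := hτ2 (c x • x) ⟨h1.1, hUO h1.2⟩ (c y • y) ⟨h2.1, hUO h2.2⟩ hxy
    refine ⟨(c y)⁻¹ * g * c x, ?_⟩
    change ((c y)⁻¹ * g * c x) • x = y
    rw [mul_smul, mul_smul]
    have hg' : g • c x • x = c y • y := hg
    rw [hg', inv_smul_smul]

variable {X : Type} [MulAction G X] [TopologicalSpace X] {BC : Subgroup G → Set X → Prop}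

/-- The part over a tame stratum. -/
theorem tame_case (h : IsAssembly V BC) {A : Set X} (hA : Invariant (⊤ : Subgroup G) A)
    (hA' : IsLocallyClosed A) {f : X → V} (hf : ContinuousOn f A) (hf' : EquivariantOn G f A)
    (hBC : ∀ v, IsLocallyClosed (orbit G v) → BC (stabilizer G v) (A ∩ f ⁻¹' {v})) {D : Set V}
    (hdi : Invariant (⊤ : Subgroup G) D) (hdl : IsLocallyClosed D)
    (hlc : ∀ v ∈ D, IsLocallyClosed (orbit G v)) {m : ℕ} {q : V → Fin m → ℝ}
    (hq : ContinuousOn q D) (hq' : InvariantOn G q D)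
    (hq2 : ∀ x ∈ D, ∀ y ∈ D, q x = q y → y ∈ orbit G x) : BC ⊤ (A ∩ f ⁻¹' D) := by
  refine h.fibres _ (invariant_preimage hA hf' hdi) (locallyClosed_preimage hA' hf hdl) m
    (fun x => q (f x)) ?_ ?_ fun y => ?_
  · exact hq.comp (hf.mono Set.inter_subset_left) fun x hx => hx.2
  · rintro g x ⟨hx, hx'⟩
    change q (f (g • x)) = q (f x)
    rw [hf' g x hx]
    exact hq' g _ hx'
  · by_cases hv : ∃ v ∈ D, q v = y
    · obtain ⟨v, hv, rfl⟩ := hv
      have h2 : A ∩ f ⁻¹' D ∩ (fun x => q (f x)) ⁻¹' {q v} = A ∩ f ⁻¹' (orbit G v) := by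
        ext x
        constructor
        · rintro ⟨⟨hx, hx'⟩, hx2⟩
          exact ⟨hx, hq2 v hv (f x) hx' (Eq.symm hx2)⟩
        · rintro ⟨hx, g, hg⟩
          have hg' : g • v = f x := hg
          have h3 : f x ∈ D := by
            rw [← hg']
            exact hdi g trivial v hv
          refine ⟨⟨hx, h3⟩, ?_⟩
          change q (f x) = q v
          rw [← hg']
          exact hq' g v hv
      rw [h2]
      exact orbit_case h hA hA' hf hf' (hlc v hv) (hBC v (hlc v hv))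
    · have h2 : A ∩ f ⁻¹' D ∩ (fun x => q (f x)) ⁻¹' {y} = ∅ := by
        ext x
        simp only [Set.mem_empty_iff_false, iff_false]
        rintro ⟨⟨hx, hx'⟩, hx2⟩
        exact hv ⟨f x, hx', hx2⟩
      rw [h2]
      exact h.empty _

/-- **The local-global principle.** -/
theorem main (h : IsAssembly V BC) (hl : IsAssemblyLimit V BC) (hV : HasStrata G V) {A : Set X}
    (hA : Invariant (⊤ : Subgroup G) A) (hA' : IsLocallyClosed A) {f : X → V}
    (hf : ContinuousOn f A) (hf' : EquivariantOn G f A)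
    (hBC : ∀ v, IsLocallyClosed (orbit G v) → BC (stabilizer G v) (A ∩ f ⁻¹' {v})) :
    BC ⊤ A := by
  classical
  let S : Set (Set V) := {U | IsOpen U ∧ Invariant (⊤ : Subgroup G) U ∧ BC ⊤ (A ∩ f ⁻¹' U)}
  obtain ⟨M, hM⟩ := zorn_subset S (by
    intro c hc hchain
    rcases c.eq_empty_or_nonempty with rfl | hne
    · refine ⟨∅, ⟨isOpen_empty, fun g _ x hx => hx, ?_⟩, fun s hs => absurd hs (by simp)⟩
      rw [Set.preimage_empty, Set.inter_empty]
      exact h.empty _
    · have hopen : IsOpen (⋃₀ c) := isOpen_sUnion fun U hU => (hc hU).1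
      refine ⟨⋃₀ c, ⟨hopen, ?_, ?_⟩, fun s hs => Set.subset_sUnion_of_mem hs⟩
      · rintro g - x ⟨U, hU, hx⟩
        exact ⟨U, hU, (hc hU).2.1 g trivial x hx⟩
      · have e : A ∩ f ⁻¹' (⋃₀ c) = ⋃₀ ((fun U => A ∩ f ⁻¹' U) '' c) := by
          ext x
          constructor
          · rintro ⟨hx, U, hU, hxU⟩
            exact ⟨A ∩ f ⁻¹' U, ⟨U, hU, rfl⟩, hx, hxU⟩
          · rintro ⟨_, ⟨U, hU, rfl⟩, hx, hxU⟩
            exact ⟨hx, U, hU, hxU⟩
        rw [e]
        refine hl.chain _ (hne.image _) ?_ ?_ ?_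
        · rintro _ ⟨U, hU, rfl⟩ _ ⟨U', hU', rfl⟩ -
          rcases hchain.total hU hU' with h1 | h1
          · exact Or.inl (Set.inter_subset_inter_right _ (Set.preimage_mono h1))
          · exact Or.inr (Set.inter_subset_inter_right _ (Set.preimage_mono h1))
        · rw [← e]
          exact locallyClosed_preimage hA' hf hopen.isLocallyClosed
        · rintro _ ⟨U, hU, rfl⟩
          refine ⟨invariant_preimage hA hf' (hc hU).2.1, ?_, (hc hU).2.2⟩
          rw [← e]
          refine openIn_preimage hf ⟨U, (hc hU).1, ?_⟩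
          rw [Set.inter_eq_right.2 (Set.subset_sUnion_of_mem hU)])
  have hMS : M ∈ S := hM.prop
  by_cases hMu : M = Set.univ
  · have h1 := hMS.2.2
    rwa [hMu, Set.preimage_univ, Set.inter_univ] at h1
  exfalso
  have hMc : IsClosed Mᶜ := hMS.1.isClosed_compl
  have hMi : Invariant (⊤ : Subgroup G) Mᶜ := fun g _ x hx hgx =>
    hx ((invariant_iff hMS.2.1 g x).1 hgx)
  -- the new stratum
  obtain ⟨W', hW'c, hW'i, hss, hBCd⟩ : ∃ W' : Set V, IsClosed W' ∧
      Invariant (⊤ : Subgroup G) W' ∧ W' ⊂ Mᶜ ∧ BC ⊤ (A ∩ f ⁻¹' (Mᶜ \ W')) := by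
    have hd : ∀ W' : Set V, IsClosed W' → Invariant (⊤ : Subgroup G) W' →
        Invariant (⊤ : Subgroup G) (Mᶜ \ W') ∧ IsLocallyClosed (Mᶜ \ W') := by
      intro W' hW'c hW'i
      refine ⟨?_, ?_⟩
      · rintro g - x ⟨hx, hx'⟩
        exact ⟨hMi g trivial x hx, fun h1 => hx' ((invariant_iff hW'i g x).1 h1)⟩
      · rw [Set.sdiff_eq]
        exact hMc.isLocallyClosed.inter hW'c.isOpen_compl.isLocallyClosed
    obtain ⟨O, hO, hWO, ⟨h1, h2⟩ | ⟨h1, h2⟩⟩ := hV Mᶜ hMc hMi (Set.nonempty_compl.2 hMu)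
    · obtain ⟨W', hW'c, hW'i, hss, hlc, m, q, hq, hq', hq2⟩ :=
        exists_quotient hMc hMi hO hWO h1 h2
      obtain ⟨hdi, hdl⟩ := hd W' hW'c hW'i
      exact ⟨W', hW'c, hW'i, hss, tame_case h hA hA' hf hf' hBC hdi hdl hlc hq hq' hq2⟩
    · have hcl : IsClosed (Mᶜ \ O) := by
        rw [Set.sdiff_eq]
        exact hMc.inter hO.isClosed_compl
      have e : Mᶜ \ (Mᶜ \ O) = Mᶜ ∩ O := by
        ext x
        simp only [Set.mem_sdiff, Set.mem_inter_iff]
        tauto
      have hinv : Invariant (⊤ : Subgroup G) (Mᶜ \ O) := by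
        rintro g - x ⟨hx, hx'⟩
        refine ⟨hMi g trivial x hx, fun h3 => hx' ?_⟩
        exact ((invariant_iff h1 g x).1 ⟨hMi g trivial x hx, h3⟩).2
      refine ⟨Mᶜ \ O, hcl, hinv, ⟨Set.sdiff_subset, fun h3 => ?_⟩, ?_⟩
      · obtain ⟨x, hx, hx'⟩ := hWO
        exact (h3 hx).2 hx'
      · obtain ⟨hdi, hdl⟩ := hd _ hcl hinv
        rw [e] at hdi hdl ⊢
        exact hl.menable _ (invariant_preimage hA hf' hdi) (locallyClosed_preimage hA' hf hdl) f
          (hf.mono Set.inter_subset_left) (fun g x hx => hf' g x hx.1) (Mᶜ ∩ O) hdi hdl h2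
          fun x hx => hx.2
  have hdi : Invariant (⊤ : Subgroup G) (Mᶜ \ W') := by
    rintro g - x ⟨hx, hx'⟩
    exact ⟨hMi g trivial x hx, fun h1 => hx' ((invariant_iff hW'i g x).1 h1)⟩
  have hdl : IsLocallyClosed (Mᶜ \ W') := by
    rw [Set.sdiff_eq]
    exact hMc.isLocallyClosed.inter hW'c.isOpen_compl.isLocallyClosed
  have hun : M ∪ (Mᶜ \ W') = W'ᶜ := by
    ext x
    constructor
    · rintro (hx | hx)
      · exact fun hx' => (hss.1 hx') hx
      · exact hx.2
    · intro hx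
      by_cases hxM : x ∈ M
      · exact Or.inl hxM
      · exact Or.inr ⟨hxM, hx⟩
  have hun' : A ∩ f ⁻¹' W'ᶜ = (A ∩ f ⁻¹' M) ∪ (A ∩ f ⁻¹' (Mᶜ \ W')) := by
    rw [← Set.inter_union_distrib_left, ← Set.preimage_union, hun]
  have hnew : W'ᶜ ∈ S := by
    refine ⟨hW'c.isOpen_compl, fun g _ x hx hgx => hx ((invariant_iff hW'i g x).1 hgx), ?_⟩
    rw [hun']
    refine h.excision _ _ (invariant_preimage hA hf' hMS.2.1) (invariant_preimage hA hf' hdi)
      (locallyClosed_preimage hA' hf hMS.1.isLocallyClosed) (locallyClosed_preimage hA' hf hdl)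
      ?_ ?_ ?_ hMS.2.2 hBCd
    · rw [← hun']
      exact locallyClosed_preimage hA' hf hW'c.isOpen_compl.isLocallyClosed
    · rw [Set.disjoint_left]
      rintro x ⟨-, hx⟩ ⟨-, hx'⟩
      exact hx'.1 hx
    · rw [← hun']
      refine openIn_preimage hf ⟨M, hMS.1, ?_⟩
      rw [Set.inter_eq_right.2]
      rw [← hun]
      exact Set.subset_union_left
  have hle : W'ᶜ ⊆ M := hM.le_of_ge hnew (by rw [← hun]; exact Set.subset_union_left)
  obtain ⟨x, hx, hx'⟩ := Set.exists_of_ssubset hss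
  exact hx (hle hx')

end

end Pool.Agent.V7H9.BT
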