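import Mathlib

/-!
# Transversals of local group actions of class `C¹` on normed spaces
-/

set_option autoImplicit false
set_option linter.unusedSectionVars false

namespace Pool.Agent.V7H9.BT

open Topology Filter Set Module

section

variable {E F : Type} [NormedAddCommGroup E] [NormedSpace ℝ E] [FiniteDimensional ℝ E]
  [NormedAddCommGroup F] [NormedSpace ℝ F] [FiniteDimensional ℝ F]

/-- The partial derivative. -/
theorem hasFDerivAt_left {a : E × F → F} {p : E × F} (h : DifferentiableAt ℝ a p) :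
    HasFDerivAt (fun ξ => a (ξ, p.2)) ((fderiv ℝ a p).comp (ContinuousLinearMap.inl ℝ E F)) p.1 := by
  have h1 : HasFDerivAt (fun ξ : E => (ξ, p.2)) (ContinuousLinearMap.inl ℝ E F) p.1 :=
    hasFDerivAt_prodMk_left p.1 p.2
  exact HasFDerivAt.comp p.1 (h.hasFDerivAt (x := p)) h1

/-- The partial derivative. -/
theorem hasFDerivAt_right {a : E × F → F} {p : E × F} (h : DifferentiableAt ℝ a p) :
    HasFDerivAt (fun s => a (p.1, s)) ((fderiv ℝ a p).comp (ContinuousLinearMap.inr ℝ E F)) p.2 := by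
  have h1 : HasFDerivAt (fun s : F => (p.1, s)) (ContinuousLinearMap.inr ℝ E F) p.2 :=
    hasFDerivAt_prodMk_right p.1 p.2
  exact HasFDerivAt.comp p.2 (h.hasFDerivAt (x := p)) h1

/-- **Flow boxes.** -/
theorem flow_box {a : E × F → F} {e₀ : E} {s₀ : F} (ha : ContDiffAt ℝ 1 a (e₀, s₀))
    (h0 : ∀ᶠ s in 𝓝 s₀, a (e₀, s) = s)
    (hρ : ∀ᶠ z in 𝓝 (e₀, s₀), ∃ ρ : E → E, ρ z.1 = e₀ ∧ DifferentiableAt ℝ ρ z.1 ∧
      ∀ᶠ ξ in 𝓝 z.1, a (ξ, z.2) = a (ρ ξ, a z))
    {W : Set F} (hW : ∀ᶠ z in 𝓝 (e₀, s₀), z.2 ∈ W → a z ∈ W)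
    (hk : ∀ᶠ s in 𝓝 s₀, s ∈ W →
      finrank ℝ (LinearMap.range (fderiv ℝ (fun ξ => a (ξ, s)) e₀ : E →ₗ[ℝ] F)) ≤
      finrank ℝ (LinearMap.range (fderiv ℝ (fun ξ => a (ξ, s₀)) e₀ : E →ₗ[ℝ] F)))
    {U : Set (E × F)} (hU : U ∈ 𝓝 (e₀, s₀)) :
    ∃ (m : ℕ) (τ : F → Fin m → ℝ) (O : Set F) (B : Set E), IsOpen O ∧ s₀ ∈ O ∧ B ∈ 𝓝 e₀ ∧
      ContinuousOn τ O ∧ (∀ ξ ∈ B, ∀ z ∈ O, z ∈ W → τ (a (ξ, z)) = τ z) ∧
      ∀ z ∈ O, ∀ z' ∈ O, τ z = τ z' → ∃ ξ ξ' t, (ξ, t) ∈ U ∧ (ξ', t) ∈ U ∧ z = a (ξ, t) ∧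
        z' = a (ξ', t) := by
  classical
  have hs₀ : a (e₀, s₀) = s₀ := h0.self_of_nhds
  -- differentiability near the point
  have hd : ∀ᶠ p in 𝓝 (e₀, s₀), DifferentiableAt ℝ a p :=
    (ha.eventually (by decide)).mono fun p hp => hp.differentiableAt one_ne_zero
  have hda : DifferentiableAt ℝ a (e₀, s₀) := hd.self_of_nhds
  set D := fderiv ℝ a (e₀, s₀) with hD
  set L := D.comp (ContinuousLinearMap.inl ℝ E F) with hL
  have hLf : fderiv ℝ (fun ξ => a (ξ, s₀)) e₀ = L := (hasFDerivAt_left hda).fderiv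
  have hDr : D.comp (ContinuousLinearMap.inr ℝ E F) = ContinuousLinearMap.id ℝ F := by
    have h1 := hasFDerivAt_right hda
    have h2 : HasFDerivAt (fun s : F => a (e₀, s)) (ContinuousLinearMap.id ℝ F) s₀ :=
      (hasFDerivAt_id s₀).congr_of_eventuallyEq h0
    exact h1.unique h2
  have hDs : ∀ (ξ : E) (t : F), D (ξ, t) = L ξ + t := by
    intro ξ t
    have h1 : (ξ, t) = (ξ, (0 : F)) + ((0 : E), t) := by simp
    rw [h1, map_add]
    have h2 : D ((0 : E), t) = t := by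
      have h3 := congrArg (fun T : F →L[ℝ] F => T t) hDr
      simpa using h3
    rw [h2]
    rfl
  rw [hLf] at hk
  -- complements
  obtain ⟨H, hH⟩ := Submodule.exists_isCompl (LinearMap.ker (L : E →ₗ[ℝ] F))
  obtain ⟨T, hT⟩ := Submodule.exists_isCompl (LinearMap.range (L : E →ₗ[ℝ] F))
  have hHL : finrank ℝ H = finrank ℝ (LinearMap.range (L : E →ₗ[ℝ] F)) := by
    have h1 := Submodule.finrank_add_eq_of_isCompl hH
    have h2 := LinearMap.finrank_range_add_finrank_ker (L : E →ₗ[ℝ] F)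
    omega
  -- the parametrization
  let j : H × T →L[ℝ] E × F := (H.subtypeL).prodMap (T.subtypeL)
  let Φ : H × T → F := fun p => a (e₀ + p.1, s₀ + p.2)
  have hΦj : ∀ p, Φ p = a ((e₀, s₀) + j p) := fun p => rfl
  have hjc : Continuous fun p : H × T => (e₀, s₀) + j p := continuous_const.add j.continuous
  have hj0 : (e₀, s₀) + j 0 = (e₀, s₀) := by rw [map_zero, add_zero]
  have hjt : Tendsto (fun p : H × T => (e₀, s₀) + j p) (𝓝 0) (𝓝 (e₀, s₀)) := by
    have h1 := hjc.tendsto 0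
    rwa [hj0] at h1
  have hΦ0 : Φ 0 = s₀ := by rw [hΦj, hj0, hs₀]
  have haff : ∀ p : H × T, HasFDerivAt (fun p : H × T => (e₀, s₀) + j p) j p := fun p =>
    (j.hasFDerivAt (x := p)).const_add _
  have hΦc : ContDiffAt ℝ 1 Φ 0 := by
    have h1 : ContDiffAt ℝ 1 (fun p : H × T => (e₀, s₀) + j p) 0 :=
      contDiffAt_const.add j.contDiff.contDiffAt
    have h2 : ContDiffAt ℝ 1 a ((fun p : H × T => (e₀, s₀) + j p) 0) := by
      change ContDiffAt ℝ 1 a ((e₀, s₀) + j 0)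
      rw [hj0]
      exact ha
    exact h2.comp (0 : H × T) h1
  have hΦd : HasFDerivAt Φ (D.comp j) 0 := by
    have h2 : HasFDerivAt a D ((fun p : H × T => (e₀, s₀) + j p) 0) := by
      change HasFDerivAt a D ((e₀, s₀) + j 0)
      rw [hj0]
      exact hda.hasFDerivAt
    exact HasFDerivAt.comp (0 : H × T) h2 (haff 0)
  have hbij : Function.Bijective (D.comp j : H × T →ₗ[ℝ] F) := by
    constructor
    · rw [← LinearMap.ker_eq_bot, LinearMap.ker_eq_bot']
      rintro ⟨ξ, t⟩ h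
      have h1 : L (ξ : E) + (t : F) = 0 := by
        rw [← hDs]
        exact h
      have h2 : (t : F) = L (-(ξ : E)) := by
        rw [map_neg]
        exact (neg_eq_of_add_eq_zero_right h1).symm
      have h3 : (t : F) = 0 := by
        have h4 : (t : F) ∈ LinearMap.range (L : E →ₗ[ℝ] F) ⊓ T := ⟨⟨_, h2.symm⟩, t.2⟩
        rw [hT.inf_eq_bot] at h4
        exact h4
      have h4 : (ξ : E) = 0 := by
        rw [h3, add_zero] at h1
        have h5 : (ξ : E) ∈ LinearMap.ker (L : E →ₗ[ℝ] F) ⊓ H := ⟨h1, ξ.2⟩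
        rw [hH.inf_eq_bot] at h5
        exact h5
      exact Prod.ext (Subtype.ext h4) (Subtype.ext h3)
    · intro y
      have h1 : y ∈ LinearMap.range (L : E →ₗ[ℝ] F) ⊔ T := by
        rw [hT.sup_eq_top]
        trivial
      obtain ⟨_, ⟨x, rfl⟩, t, ht, rfl⟩ := Submodule.mem_sup.1 h1
      have h2 : x ∈ LinearMap.ker (L : E →ₗ[ℝ] F) ⊔ H := by
        rw [hH.sup_eq_top]
        trivial
      obtain ⟨k, hk', ξ, hξ, rfl⟩ := Submodule.mem_sup.1 h2
      refine ⟨(⟨ξ, hξ⟩, ⟨t, ht⟩), ?_⟩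
      change D (ξ, t) = L (k + ξ) + t
      rw [hDs, map_add]
      have h3 : L k = 0 := hk'
      rw [h3, zero_add]
  let e : (H × T) ≃L[ℝ] F := (LinearEquiv.ofBijective (D.comp j : H × T →ₗ[ℝ] F)
    hbij).toContinuousLinearEquiv
  have he : (e : H × T →L[ℝ] F) = D.comp j := by
    ext p <;> rfl
  have hΦe : HasFDerivAt Φ (e : H × T →L[ℝ] F) 0 := by
    rw [he]
    exact hΦd
  let R := hΦc.toOpenPartialHomeomorph Φ hΦe one_ne_zero
  have hR : ∀ p, R p = Φ p := fun p => rfl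
  have hRs : (0 : H × T) ∈ R.source := hΦc.mem_toOpenPartialHomeomorph_source hΦe one_ne_zero
  have hRt : s₀ ∈ R.target := by
    have h1 := hΦc.image_mem_toOpenPartialHomeomorph_target hΦe one_ne_zero
    rwa [hΦ0] at h1
  have hR0 : R.symm s₀ = 0 := by
    have h1 := R.left_inv hRs
    rwa [hR, hΦ0] at h1
  have hΨc : ContDiffAt ℝ 1 R.symm s₀ := by
    have h1 := hΦc.to_localInverse hΦe one_ne_zero
    rwa [hΦ0] at h1
  have hΨt : Tendsto R.symm (𝓝 s₀) (𝓝 0) := by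
    have h1 := hΨc.continuousAt.tendsto
    rwa [hR0] at h1
  have hΨd : ∀ᶠ z in 𝓝 s₀, DifferentiableAt ℝ R.symm z :=
    (hΨc.eventually (by decide)).mono fun p hp => hp.differentiableAt one_ne_zero
  have hΨj : Tendsto (fun z => (e₀, s₀) + j (R.symm z)) (𝓝 s₀) (𝓝 (e₀, s₀)) := hjt.comp hΨt
  -- the first claim
  have hpair : Tendsto (fun z : F => (e₀, z)) (𝓝 s₀) (𝓝 (e₀, s₀)) :=
    (Continuous.prodMk_right e₀).tendsto s₀
  have claim1 : ∀ᶠ z in 𝓝 s₀, z ∈ W → ∀ x : E,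
      ((fderiv ℝ R.symm z) ((fderiv ℝ (fun ξ => a (ξ, z)) e₀) x)).2 = 0 := by
    filter_upwards [R.open_target.mem_nhds hRt, hΨd, hk, hΨj.eventually hd, hΨj.eventually hρ,
      hpair.eventually hd] with z hzt hzd hzk hzda hzρ hzd2 hzW
    obtain ⟨⟨ξ, t⟩, hp⟩ : ∃ p, R.symm z = p := ⟨_, rfl⟩
    have hps : ((ξ, t) : H × T) ∈ R.source := by
      rw [← hp]
      exact R.map_target hzt
    have hΦp : Φ (ξ, t) = z := by
      rw [← hR, ← hp]
      exact R.right_inv hzt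
    rw [hp] at hzda hzρ
    obtain ⟨ρ, hρ1, hρ2, hρ3⟩ := hzρ
    have haz : a ((e₀, s₀) + j (ξ, t)) = z := by
      rw [← hΦj]
      exact hΦp
    rw [haz] at hρ3
    -- the derivative of the plaque
    let ι : H →L[ℝ] H × T := ContinuousLinearMap.inl ℝ H T
    have hι : HasFDerivAt (fun u : H => (u, t)) ι ξ := hasFDerivAt_prodMk_left ξ t
    have hΦp' : HasFDerivAt Φ ((fderiv ℝ a ((e₀, s₀) + j (ξ, t))).comp j) (ξ, t) :=
      HasFDerivAt.comp (ξ, t) hzda.hasFDerivAt (haff (ξ, t))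
    set M := ((fderiv ℝ a ((e₀, s₀) + j (ξ, t))).comp j).comp ι with hM
    have hMd : HasFDerivAt (fun u : H => Φ (u, t)) M ξ :=
      HasFDerivAt.comp ξ (g := Φ) hΦp' hι
    have hΨM : (fderiv ℝ R.symm z).comp M = ι := by
      have h1 : HasFDerivAt (fun u : H => R.symm (Φ (u, t))) ((fderiv ℝ R.symm z).comp M) ξ := by
        refine HasFDerivAt.comp ξ (g := R.symm) ?_ hMd
        rw [hΦp]
        exact hzd.hasFDerivAt
      have h2 : (fun u : H => R.symm (Φ (u, t))) =ᶠ[𝓝 ξ] fun u => (u, t) := by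
        have h3 : ∀ᶠ u in 𝓝 ξ, ((u, t) : H × T) ∈ R.source :=
          (Continuous.prodMk_left t).continuousAt.eventually (R.open_source.mem_nhds hps)
        filter_upwards [h3] with u hu
        exact R.left_inv hu
      exact (h1.congr_of_eventuallyEq h2.symm).unique hι
    set A := fderiv ℝ (fun ξ => a (ξ, z)) e₀ with hA
    have hAd : HasFDerivAt (fun ξ => a (ξ, z)) A e₀ :=
      (hasFDerivAt_left hzd2).differentiableAt.hasFDerivAt
    have hMA : LinearMap.range (M : H →ₗ[ℝ] F) ≤ LinearMap.range (A : E →ₗ[ℝ] F) := by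
      have h1 : HasFDerivAt (fun u : H => a (ρ (e₀ + u), z))
          (A.comp ((fderiv ℝ ρ (e₀ + ξ)).comp H.subtypeL)) ξ := by
        have h2 : HasFDerivAt (fun u : H => e₀ + (u : E)) H.subtypeL ξ :=
          (H.subtypeL.hasFDerivAt (x := ξ)).const_add _
        have h3 : HasFDerivAt (fun u : H => ρ (e₀ + u)) ((fderiv ℝ ρ (e₀ + ξ)).comp H.subtypeL) ξ :=
          HasFDerivAt.comp ξ hρ2.hasFDerivAt h2
        refine HasFDerivAt.comp ξ (g := fun ξ => a (ξ, z)) ?_ h3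
        have h4 : ρ (e₀ + ξ) = e₀ := hρ1
        rw [h4]
        exact hAd
      have h5 : (fun u : H => Φ (u, t)) =ᶠ[𝓝 ξ] fun u : H => a (ρ (e₀ + u), z) := by
        have h6 : Tendsto (fun u : H => e₀ + (u : E)) (𝓝 ξ) (𝓝 (e₀ + (ξ : E))) :=
          (continuous_const.add continuous_subtype_val).tendsto ξ
        exact h6.eventually hρ3
      have h6 := (hMd.congr_of_eventuallyEq h5.symm).unique h1
      rintro _ ⟨x, rfl⟩
      exact ⟨_, (congrArg (fun T : H →L[ℝ] F => T x) h6).symm⟩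
    have hMinj : Function.Injective M := by
      intro x y hxy
      have h1 : ι x = ι y := by
        rw [← hΨM]
        change (fderiv ℝ R.symm z) (M x) = (fderiv ℝ R.symm z) (M y)
        rw [hxy]
      exact congrArg Prod.fst h1
    have hrank : finrank ℝ (LinearMap.range (M : H →ₗ[ℝ] F)) = finrank ℝ H :=
      LinearMap.finrank_range_of_inj hMinj
    have heq : LinearMap.range (M : H →ₗ[ℝ] F) = LinearMap.range (A : E →ₗ[ℝ] F) :=
      Submodule.eq_of_le_of_finrank_le hMA (by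
        rw [hrank, hHL]
        exact hzk hzW)
    intro x
    have hx : A x ∈ LinearMap.range (M : H →ₗ[ℝ] F) := by
      rw [heq]
      exact ⟨x, rfl⟩
    obtain ⟨u, hu⟩ := hx
    have hu' : M u = A x := hu
    rw [← hu']
    have h7 : (fderiv ℝ R.symm z) (M u) = ι u :=
      congrArg (fun T : H →L[ℝ] H × T => T u) hΨM
    rw [h7]
    rfl
  -- the second claim
  have hat : Tendsto a (𝓝 (e₀, s₀)) (𝓝 s₀) := by
    have h1 := ha.continuousAt.tendsto
    rwa [hs₀] at h1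
  have claim2 : ∀ᶠ w in 𝓝 (e₀, s₀), w.2 ∈ W →
      HasFDerivAt (fun ξ => (R.symm (a (ξ, w.2))).2) (0 : E →L[ℝ] T) w.1 := by
    filter_upwards [hat.eventually claim1, hat.eventually hΨd, hat.eventually h0, hρ, hW,
      hat.eventually (hpair.eventually hd)] with w h1 h2 h3 h4 h5 h6 hwW
    obtain ⟨ρ, hρ1, hρ2, hρ3⟩ := h4
    have hzW := h5 hwW
    set z := a w with hz
    set A := fderiv ℝ (fun ξ => a (ξ, z)) e₀ with hA
    have hAd : HasFDerivAt (fun ξ => a (ξ, z)) A e₀ :=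
      (hasFDerivAt_left h6).differentiableAt.hasFDerivAt
    have h7 : HasFDerivAt (fun ξ => a (ρ ξ, z)) (A.comp (fderiv ℝ ρ w.1)) w.1 := by
      refine HasFDerivAt.comp w.1 (g := fun ξ => a (ξ, z)) ?_ hρ2.hasFDerivAt
      rw [hρ1]
      exact hAd
    have h8 : HasFDerivAt (fun ξ => R.symm (a (ρ ξ, z)))
        ((fderiv ℝ R.symm z).comp (A.comp (fderiv ℝ ρ w.1))) w.1 := by
      refine HasFDerivAt.comp w.1 (g := R.symm) ?_ h7
      rw [hρ1, h3]
      exact h2.hasFDerivAt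
    have h9 : HasFDerivAt (fun ξ => (R.symm (a (ρ ξ, z))).2)
        ((ContinuousLinearMap.snd ℝ H T).comp
          ((fderiv ℝ R.symm z).comp (A.comp (fderiv ℝ ρ w.1)))) w.1 :=
      HasFDerivAt.comp w.1 (ContinuousLinearMap.hasFDerivAt (ContinuousLinearMap.snd ℝ H T)) h8
    have h10 : (ContinuousLinearMap.snd ℝ H T).comp
        ((fderiv ℝ R.symm z).comp (A.comp (fderiv ℝ ρ w.1))) = 0 := by
      ext x
      exact congrArg Subtype.val (h1 hzW (fderiv ℝ ρ w.1 x))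
    rw [h10] at h9
    refine h9.congr_of_eventuallyEq ?_
    filter_upwards [hρ3] with ξ hξ
    rw [hξ]
  obtain ⟨u, v, hu, hue, hv, hvs, huv⟩ := mem_nhds_prod_iff'.1 claim2
  obtain ⟨δ, hδ, hball⟩ := Metric.isOpen_iff.1 hu e₀ hue
  have hO : {z | z ∈ v ∧ z ∈ R.target ∧ a (e₀, z) = z ∧ (e₀, s₀) + j (R.symm z) ∈ U} ∈ 𝓝 s₀ := by
    filter_upwards [hv.mem_nhds hvs, R.open_target.mem_nhds hRt, h0, hΨj.eventually hU] with
      z h1 h2 h3 h4
    exact ⟨h1, h2, h3, h4⟩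
  obtain ⟨O, hOsub, hOo, hOs⟩ := mem_nhds_iff.1 hO
  let β : T ≃ₗ[ℝ] (Fin (finrank ℝ T) → ℝ) := (finBasis ℝ T).equivFun
  have hβ : Continuous β := β.toContinuousLinearEquiv.continuous
  refine ⟨finrank ℝ T, fun z => β (R.symm z).2, O, Metric.ball e₀ δ, hOo, hOs,
    Metric.ball_mem_nhds _ hδ, ?_, ?_, ?_⟩
  · refine hβ.comp_continuousOn (continuous_snd.comp_continuousOn ?_)
    exact R.continuousOn_symm.mono fun z hz => (hOsub hz).2.1
  · intro ξ hξ z hz hzW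
    have hder : ∀ ξ ∈ Metric.ball e₀ δ,
        HasFDerivAt (fun ξ => (R.symm (a (ξ, z))).2) (0 : E →L[ℝ] T) ξ := fun ξ hξ =>
      huv (Set.mk_mem_prod (hball hξ) (hOsub hz).1) hzW
    have h1 : (R.symm (a (ξ, z))).2 = (R.symm (a (e₀, z))).2 :=
      Metric.isOpen_ball.is_const_of_fderiv_eq_zero (convex_ball e₀ δ).isPreconnected
        (fun ξ hξ => (hder ξ hξ).differentiableAt.differentiableWithinAt)
        (fun ξ hξ => (hder ξ hξ).fderiv) hξ (Metric.mem_ball_self hδ)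
    change β (R.symm (a (ξ, z))).2 = β (R.symm z).2
    rw [h1, (hOsub hz).2.2.1]
  · intro z hz z' hz' h
    have h1 : (R.symm z).2 = (R.symm z').2 := β.injective h
    have h2 : ∀ z ∈ O, z = a ((e₀, s₀) + j (R.symm z)) := by
      intro z hz
      rw [← hΦj, ← hR]
      exact (R.right_inv (hOsub hz).2.1).symm
    refine ⟨e₀ + (R.symm z).1, e₀ + (R.symm z').1, s₀ + (R.symm z).2, (hOsub hz).2.2.2, ?_,
      h2 z hz, ?_⟩
    · have h3 := (hOsub hz').2.2.2
      rw [h1]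
      exact h3
    · rw [h1]
      exact h2 z' hz'

end

end Pool.Agent.V7H9.BT
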