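import Pool.Agent.V7H9.BT.Defs
import Pool.Agent.V7H9.BT.Flow

/-!
# Smooth actions have transversals
-/

set_option autoImplicit false
set_option linter.unusedSectionVars false

open MulAction Topology Filter Set Module
open scoped Manifold

namespace Pool.Agent.V7H9.BT

open Pool.Agent.V7H36.BC

section

variable {E : Type} [NormedAddCommGroup E] [NormedSpace ℝ E] [FiniteDimensional ℝ E]
  {F : Type} [NormedAddCommGroup F] [NormedSpace ℝ F] [FiniteDimensional ℝ F]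
  {G : Type} [Group G] [TopologicalSpace G] [ChartedSpace E G] [LieGroup 𝓘(ℝ, E) 1 G]
  {V : Type} [TopologicalSpace V] [ChartedSpace F V] [IsManifold 𝓘(ℝ, F) 1 V] [MulAction G V]

/-- **Smooth actions have transversals.** -/
theorem exists_transversal
    (hsm : ContMDiff (𝓘(ℝ, E).prod 𝓘(ℝ, F)) 𝓘(ℝ, F) 1 (fun p : G × V => p.1 • p.2)) {W : Set V}
    (hWi : Invariant (⊤ : Subgroup G) W) {O₁ : Set V} (hO₁ : IsOpen O₁)
    (hne : (W ∩ O₁).Nonempty) :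
    ∃ O : Set V, IsOpen O ∧ O ⊆ O₁ ∧ (W ∩ O).Nonempty ∧ HasTransversal G W O := by
  classical
  have hG : IsTopologicalGroup G := topologicalGroup_of_lieGroup 𝓘(ℝ, E) 1
  have hsc : Continuous fun p : G × V => p.1 • p.2 := hsm.continuous
  obtain ⟨w₁, hw₁, hw₁O⟩ := hne
  let χ := chartAt E (1 : G)
  let ψ := chartAt F w₁
  let e₀ : E := χ 1
  have h1s : (1 : G) ∈ χ.source := mem_chart_source E 1
  have he₀ : e₀ ∈ χ.target := χ.map_source h1s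
  have hχ1 : χ.symm e₀ = 1 := χ.left_inv h1s
  let b : E × F → V := fun p => χ.symm p.1 • ψ.symm p.2
  let a : E × F → F := fun p => ψ (b p)
  let r : F → ℕ := fun z =>
    finrank ℝ (LinearMap.range (fderiv ℝ (fun ξ => a (ξ, z)) e₀ : E →ₗ[ℝ] F))
  have hr : ∀ z, r z ≤ finrank ℝ E := fun z => LinearMap.finrank_range_le _
  -- a point with an orbit of maximal dimension
  obtain ⟨x₀, ⟨hx₀W, hx₀s, hx₀O⟩, hmax⟩ : ∃ x₀ ∈ W ∩ (ψ.source ∩ O₁),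
      ∀ x ∈ W ∩ (ψ.source ∩ O₁), r (ψ x) ≤ r (ψ x₀) := by
    have hex : ∃ n : ℕ, ∃ x ∈ W ∩ (ψ.source ∩ O₁), finrank ℝ E - r (ψ x) = n :=
      ⟨_, w₁, ⟨hw₁, mem_chart_source F w₁, hw₁O⟩, rfl⟩
    obtain ⟨x₀, hx₀, h1⟩ := Nat.find_spec hex
    refine ⟨x₀, hx₀, fun x hx => ?_⟩
    have h2 := Nat.find_min' hex ⟨x, hx, rfl⟩
    rw [← h1] at h2
    have h3 := hr (ψ x)
    have h4 := hr (ψ x₀)
    omega
  let s₀ : F := ψ x₀
  have hs₀ : s₀ ∈ ψ.target := ψ.map_source hx₀s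
  have hψs : ψ.symm s₀ = x₀ := ψ.left_inv hx₀s
  have hb0 : b (e₀, s₀) = x₀ := by
    change χ.symm e₀ • ψ.symm s₀ = x₀
    rw [hχ1, one_smul, hψs]
  -- the charts are differentiable
  have hχsymm : ∀ ξ ∈ χ.target, ContMDiffAt 𝓘(ℝ, E) 𝓘(ℝ, E) 1 χ.symm ξ := fun ξ hξ =>
    (contMDiffOn_chart_symm (I := 𝓘(ℝ, E)) (n := 1) (x := (1 : G))).contMDiffAt
      (χ.open_target.mem_nhds hξ)
  have hψsymm : ∀ z ∈ ψ.target, ContMDiffAt 𝓘(ℝ, F) 𝓘(ℝ, F) 1 ψ.symm z := fun z hz =>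
    (contMDiffOn_chart_symm (I := 𝓘(ℝ, F)) (n := 1) (x := w₁)).contMDiffAt
      (ψ.open_target.mem_nhds hz)
  have hχc : ∀ g ∈ χ.source, ContMDiffAt 𝓘(ℝ, E) 𝓘(ℝ, E) 1 χ g := fun g hg =>
    (contMDiffOn_chart (I := 𝓘(ℝ, E)) (n := 1) (x := (1 : G))).contMDiffAt
      (χ.open_source.mem_nhds hg)
  have hψc : ∀ x ∈ ψ.source, ContMDiffAt 𝓘(ℝ, F) 𝓘(ℝ, F) 1 ψ x := fun x hx =>
    (contMDiffOn_chart (I := 𝓘(ℝ, F)) (n := 1) (x := w₁)).contMDiffAt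
      (ψ.open_source.mem_nhds hx)
  have hbc : ContMDiffAt 𝓘(ℝ, E × F) 𝓘(ℝ, F) 1 b (e₀, s₀) := by
    have h1 : ContMDiffAt 𝓘(ℝ, E × F) 𝓘(ℝ, E) 1 (fun p : E × F => χ.symm p.1) (e₀, s₀) :=
      ContMDiffAt.comp (I' := 𝓘(ℝ, E)) (e₀, s₀) (hχsymm e₀ he₀)
        (contDiff_fst.contMDiff).contMDiffAt
    have h2 : ContMDiffAt 𝓘(ℝ, E × F) 𝓘(ℝ, F) 1 (fun p : E × F => ψ.symm p.2) (e₀, s₀) :=
      ContMDiffAt.comp (I' := 𝓘(ℝ, F)) (e₀, s₀) (hψsymm s₀ hs₀)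
        (contDiff_snd.contMDiff).contMDiffAt
    exact ContMDiffAt.comp (I' := 𝓘(ℝ, E).prod 𝓘(ℝ, F)) (e₀, s₀)
      (hsm.contMDiffAt (x := (χ.symm e₀, ψ.symm s₀))) (h1.prodMk h2)
  have ha : ContDiffAt ℝ 1 a (e₀, s₀) := by
    rw [← contMDiffAt_iff_contDiffAt]
    refine ContMDiffAt.comp (I' := 𝓘(ℝ, F)) (e₀, s₀) (g := ψ) (f := b) ?_ hbc
    rw [hb0]
    exact hψc x₀ hx₀s
  -- the neighbourhood in which the calculations take place
  have hgood : ∀ᶠ w in 𝓝 (e₀, s₀), w.1 ∈ χ.target ∧ w.2 ∈ ψ.target ∧ b w ∈ ψ.source := by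
    have h1 : ∀ᶠ w in 𝓝 (e₀, s₀), w.1 ∈ χ.target :=
      (continuous_fst.tendsto (e₀, s₀)).eventually (χ.open_target.mem_nhds he₀)
    have h2 : ∀ᶠ w in 𝓝 (e₀, s₀), w.2 ∈ ψ.target :=
      (continuous_snd.tendsto (e₀, s₀)).eventually (ψ.open_target.mem_nhds hs₀)
    have h3 : ∀ᶠ w in 𝓝 (e₀, s₀), b w ∈ ψ.source := by
      refine hbc.continuousAt.eventually (ψ.open_source.mem_nhds ?_)
      rw [hb0]
      exact hx₀s
    filter_upwards [h1, h2, h3] with w h1 h2 h3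
    exact ⟨h1, h2, h3⟩
  let W₀ : Set F := {z | z ∈ ψ.target ∧ ψ.symm z ∈ W}
  obtain ⟨m, τ, O, B, hO, hsO, hB, hτ, hτ1, hτ2⟩ := flow_box (a := a) (e₀ := e₀) (s₀ := s₀) ha
    (by
      filter_upwards [ψ.open_target.mem_nhds hs₀] with s hs
      change ψ (χ.symm e₀ • ψ.symm s) = s
      rw [hχ1, one_smul]
      exact ψ.right_inv hs)
    (by
      filter_upwards [hgood] with w ⟨h1, h2, h3⟩
      let c : G := (χ.symm w.1)⁻¹
      refine ⟨fun ξ => χ (χ.symm ξ * c), ?_, ?_, ?_⟩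
      · change χ (χ.symm w.1 * (χ.symm w.1)⁻¹) = e₀
        rw [mul_inv_cancel]
      · have h4 : ContMDiffAt 𝓘(ℝ, E) 𝓘(ℝ, E) 1 (fun ξ => χ.symm ξ * c) w.1 :=
          (hχsymm w.1 h1).mul contMDiffAt_const
        have h5 : ContMDiffAt 𝓘(ℝ, E) 𝓘(ℝ, E) 1 (fun ξ => χ (χ.symm ξ * c)) w.1 := by
          refine ContMDiffAt.comp (I' := 𝓘(ℝ, E)) w.1 (g := χ) (f := fun ξ => χ.symm ξ * c) ?_ h4
          refine hχc _ ?_
          change χ.symm w.1 * (χ.symm w.1)⁻¹ ∈ χ.source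
          rw [mul_inv_cancel]
          exact h1s
        exact (contMDiffAt_iff_contDiffAt.1 h5).differentiableAt one_ne_zero
      · have h4 : ∀ᶠ ξ in 𝓝 w.1, χ.symm ξ * c ∈ χ.source := by
          have h5 : ContinuousAt (fun ξ => χ.symm ξ * c) w.1 :=
            ((hχsymm w.1 h1).continuousAt).mul continuousAt_const
          refine h5.eventually (χ.open_source.mem_nhds ?_)
          change χ.symm w.1 * (χ.symm w.1)⁻¹ ∈ χ.source
          rw [mul_inv_cancel]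
          exact h1s
        filter_upwards [h4] with ξ hξ
        change ψ (χ.symm ξ • ψ.symm w.2) =
          ψ (χ.symm (χ (χ.symm ξ * c)) • ψ.symm (ψ (χ.symm w.1 • ψ.symm w.2)))
        rw [χ.left_inv hξ, ψ.left_inv h3, smul_smul]
        change _ = ψ ((χ.symm ξ * (χ.symm w.1)⁻¹ * χ.symm w.1) • ψ.symm w.2)
        rw [inv_mul_cancel_right])
    (W := W₀)
    (by
      filter_upwards [hgood] with w ⟨h1, h2, h3⟩ hw
      refine ⟨ψ.map_source h3, ?_⟩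
      change ψ.symm (ψ (χ.symm w.1 • ψ.symm w.2)) ∈ W
      rw [ψ.left_inv h3]
      exact hWi _ trivial _ hw.2)
    (by
      have h0 : ∀ᶠ s in 𝓝 s₀, ψ.symm s ∈ O₁ := by
        refine (hψsymm s₀ hs₀).continuousAt.eventually (hO₁.mem_nhds ?_)
        rw [hψs]
        exact hx₀O
      filter_upwards [h0] with s hsO hs
      have h1 := hmax (ψ.symm s) ⟨hs.2, ψ.map_target hs.1, hsO⟩
      rw [ψ.right_inv hs.1] at h1
      exact h1)
    hgood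
  refine ⟨ψ.source ∩ ψ ⁻¹' O ∩ O₁, (ψ.isOpen_inter_preimage hO).inter hO₁,
    Set.inter_subset_right, ⟨x₀, hx₀W, ⟨hx₀s, hsO⟩, hx₀O⟩,
    χ.source ∩ χ ⁻¹' B, m, fun x => τ (ψ x), ?_, ?_, ?_, ?_⟩
  · exact inter_mem (χ.open_source.mem_nhds h1s)
      ((χ.continuousAt h1s).preimage_mem_nhds hB)
  · refine hτ.comp (ψ.continuousOn.mono fun x hx => hx.2.1.1) fun x hx => hx.2.1.2
  · rintro g ⟨hg, hgB⟩ x ⟨hxW, ⟨hxs, hxO⟩, -⟩ -
    have h1 := hτ1 (χ g) hgB (ψ x) hxO ⟨ψ.map_source hxs, by rw [ψ.left_inv hxs]; exact hxW⟩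
    have h2 : a (χ g, ψ x) = ψ (g • x) := by
      change ψ (χ.symm (χ g) • ψ.symm (ψ x)) = ψ (g • x)
      rw [χ.left_inv hg, ψ.left_inv hxs]
    rw [h2] at h1
    exact h1
  · rintro x ⟨-, ⟨hxs, hxO⟩, -⟩ y ⟨-, ⟨hys, hyO⟩, -⟩ hxy
    obtain ⟨ξ, ξ', t, h1, h2, h3, h4⟩ := hτ2 (ψ x) hxO (ψ y) hyO hxy
    have h5 : x = χ.symm ξ • ψ.symm t := by
      rw [← ψ.left_inv hxs, h3]
      exact ψ.left_inv h1.2.2
    have h6 : y = χ.symm ξ' • ψ.symm t := by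
      rw [← ψ.left_inv hys, h4]
      exact ψ.left_inv h2.2.2
    refine ⟨χ.symm ξ' * (χ.symm ξ)⁻¹, ?_⟩
    change (χ.symm ξ' * (χ.symm ξ)⁻¹) • x = y
    rw [h6, h5, smul_smul, inv_mul_cancel_right]

/-- **Smooth actions have tame or a-T-menable strata** if each nonempty closed invariant set has a
nonempty relatively open part which consists of points with locally closed orbits or is invariant and
a-T-menable. -/
theorem hasStrata_of_smooth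
    (hsm : ContMDiff (𝓘(ℝ, E).prod 𝓘(ℝ, F)) 𝓘(ℝ, F) 1 (fun p : G × V => p.1 • p.2))
    (h : ∀ W : Set V, IsClosed W → Invariant (⊤ : Subgroup G) W → W.Nonempty →
      ∃ O : Set V, IsOpen O ∧ (W ∩ O).Nonempty ∧
        ((∀ v ∈ W ∩ O, IsLocallyClosed (orbit G v)) ∨
          (Invariant (⊤ : Subgroup G) (W ∩ O) ∧ IsATMenableOn G (W ∩ O)))) :
    HasStrata G V := by
  intro W hW hWi hne
  obtain ⟨O, hO, hWO, h1 | h1⟩ := h W hW hWi hne
  · obtain ⟨O', hO', hsub, hWO', hT⟩ := exists_transversal hsm hWi hO hWO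
    exact ⟨O', hO', hWO', Or.inl ⟨fun v hv => h1 v ⟨hv.1, hsub hv.2⟩, hT⟩⟩
  · exact ⟨O, hO, hWO, Or.inr h1⟩

end

end Pool.Agent.V7H9.BT
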