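import Pool.Agent.V7H36.BC.Defs

/-!
# The Baum-Connes assembly map for tame and a-T-menable strata of smooth actions: definitions
-/

set_option autoImplicit false

open MulAction Topology

namespace Pool.Agent.V7H9.BT

open Pool.Agent.V7H36.BC

section

variable (G : Type) {V : Type} [Group G] [TopologicalSpace G] [MulAction G V] [TopologicalSpace V]

/-- The closed invariant set `W` has a *transversal* in the open set `O`: there are a
neighbourhood `N` of the identity and a continuous map `τ` from `W ∩ O` to a Euclidean space (the
projection to a transversal of the orbits) which is locally constant along the orbits, `τ (g x) = τ (x)`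
for `g` in `N` if `x` and `g x` are in `W ∩ O`, and such that points with the same value belong to the
same orbit. -/
def HasTransversal (W O : Set V) : Prop :=
  ∃ (N : Set G) (m : ℕ) (τ : V → Fin m → ℝ), N ∈ 𝓝 (1 : G) ∧ ContinuousOn τ (W ∩ O) ∧
    (∀ g ∈ N, ∀ x ∈ W ∩ O, g • x ∈ O → τ (g • x) = τ x) ∧
    ∀ x ∈ W ∩ O, ∀ y ∈ W ∩ O, τ x = τ y → y ∈ orbit G x

/-- The action of `G` on the invariant set `B` is *a-T-menable*, that is, the groupoid `B ⋊ G` has a
continuous function `ψ` of negative type which is locally proper (Tu). Amenable actions and proper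
actions are a-T-menable. The value of `ψ` at the arrow from `v` to `g v` is denoted by `ψ g v`. -/
def IsATMenableOn (B : Set V) : Prop :=
  ∃ ψ : G → V → ℝ, ContinuousOn (fun z : G × V => ψ z.1 z.2) (Set.univ ×ˢ B) ∧
    (∀ v ∈ B, ψ 1 v = 0) ∧ (∀ g : G, ∀ v ∈ B, ψ g⁻¹ (g • v) = ψ g v) ∧
    (∀ v ∈ B, ∀ (n : ℕ) (g : Fin n → G) (c : Fin n → ℝ), ∑ i, c i = 0 →
      ∑ i, ∑ j, c i * c j * ψ (g i * (g j)⁻¹) (g j • v) ≤ 0) ∧
    ∀ K : Set V, K ⊆ B → IsCompact K → ∀ R : ℝ, ∃ L : Set G, IsCompact L ∧
      ∀ g : G, ∀ v ∈ K, g • v ∈ K → ψ g v ≤ R → g ∈ L

variable (V)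

/-- The action of `G` on `V` *has tame or a-T-menable strata*: each nonempty closed invariant subset `W`
of `V` has a nonempty relatively open subset `W ∩ O` such that

* the orbits of the points of `W ∩ O` are locally closed and there is a transversal in `O`, or
* `W ∩ O` is invariant and the action on `W ∩ O` is a-T-menable.

For smooth actions of Lie groups on manifolds the condition on the transversals can be omitted
(`hasStrata_of_smooth`), so all smooth actions with locally closed orbits have this property. -/
def HasStrata : Prop :=
  ∀ W : Set V, IsClosed W → Invariant (⊤ : Subgroup G) W → W.Nonempty →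
    ∃ O : Set V, IsOpen O ∧ (W ∩ O).Nonempty ∧
      (((∀ v ∈ W ∩ O, IsLocallyClosed (orbit G v)) ∧ HasTransversal G W O) ∨
        (Invariant (⊤ : Subgroup G) (W ∩ O) ∧ IsATMenableOn G (W ∩ O)))

end

section

variable {G X : Type} [Group G] [TopologicalSpace G] [MulAction G X] [TopologicalSpace X]

/-- Two further known properties of the assembly map (in addition to `IsAssembly`). -/
structure IsAssemblyLimit (V : Type) [MulAction G V] [TopologicalSpace V]
    (BC : Subgroup G → Set X → Prop) : Prop where
  /-- if a locally closed invariant set is the union of a chain of relatively open invariant subsets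
  for which the assembly map is an isomorphism then this is so for the union (`C_0` of the union is
  the inductive limit, and topological K-theory of `G` with coefficients, reduced crossed products and
  K-theory are compatible with inductive limits; Chabert, Echterhoff) -/
  chain : ∀ C : Set (Set X), C.Nonempty → IsChain (· ⊆ ·) C → IsLocallyClosed (⋃₀ C) →
    (∀ A ∈ C, Invariant (⊤ : Subgroup G) A ∧ IsOpenIn A (⋃₀ C) ∧ BC ⊤ A) → BC ⊤ (⋃₀ C)
  /-- Tu: if there is an equivariant continuous map to a locally compact space with an a-T-menable
  action then the assembly map is an isomorphism -/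
  menable : ∀ A : Set X, Invariant (⊤ : Subgroup G) A → IsLocallyClosed A →
    ∀ f : X → V, ContinuousOn f A → EquivariantOn G f A → ∀ B : Set V,
      Invariant (⊤ : Subgroup G) B → IsLocallyClosed B → IsATMenableOn G B → Set.MapsTo f A B →
        BC ⊤ A

end

end Pool.Agent.V7H9.BT
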